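import Pool.Agent.Q138.PS.WO
import Pool.Agent.Q138.PS.WQ
import Pool.Agent.Q138.PS.VE
import Pool.Agent.Q138.AI.R6babc4

/-!
# Frey's inequality for elliptic curves with invariants or parameters close to given points

Let `L` be a number field, `Y` a metric space and `p : L → Y` any map (for instance the embedding of `L` in one of its
completions). `H` is the height relative to `L`. All elliptic curves over `L` with the given invariant (all twists) and their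
Weil restrictions `A = Res_{L/K} E` to ALL subfields `K` are considered.

(1) There is an absolute constant `C` such that for `0 ≤ δ ≤ 3` and `τ > 0` there is a set `Z ⊆ Y` of Hausdorff dimension at
most `(2 - δ / (2 (1 + δ))) / τ` with: for `z ∈ Y` outside `Z` and all `c`, all but finitely many of the `j ∈ L` with
`dist (p j, z) ≤ c H(j) ^ (-τ)` satisfy
`12 [K : ℚ] h_F(A) ≤ (1 + δ) log (multNorm E) + 5 log (addNorm E) + 3 log (relDisc ^ 2) + C [L : ℚ]`, in particular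
`h_F(A) ≤ (5 / (12 [K : ℚ])) log N_A + C [L : K]` (the dimension is `13 / (8 τ)` for `δ = 3`).

(2) For `a ≥ 4`, `τ > 0`, `D` and `r` there is a set `Z ⊆ Y` of Hausdorff dimension at most `D e / (a τ)`, `e = 2 / max (2, r)`,
with: for `z ∈ Y` outside `Z` and EVERY rational function `F / G` over `L` of degree at most `D` with at least two poles on the
projective line over the algebraic closure and at least `r` poles in `ℙ¹(L)`, and all `c`, all but finitely many of the `t ∈ L`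
with `dist (p t, z) ≤ c H(t) ^ (-τ)`, `G(t) ≠ 0`, satisfy the inequality WITHOUT constant
`12 [K : ℚ] h_F(A) ≤ a log (multNorm E) + (a / 2 + 3) log (addNorm E) + 3 log (relDisc ^ 2)` for all `E` of invariant
`F(t) / G(t)`, and, if `a ≥ 6`, `h_F(A) ≤ (a / (12 [K : ℚ])) log N_A`.

(3) There is ONE set `Z ⊆ Y` of Hausdorff dimension ZERO such that for `z ∈ Y` outside `Z`, every such `F / G` with two poles,
every `τ > 0` and `c` there is a slope `N` with `h_F(A) ≤ (N / [K : ℚ]) log N_A` for all but finitely many of these `t`. One set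
`Z ⊆ ℂ` of dimension zero serves all number fields in `ℂ`.
-/

set_option autoImplicit false

namespace Pool.Agent.Results.MP_6babc4_nt.FamiliesNearGivenPoints

open NumberField Polynomial Pool.Agent.Q138.PS
open Pool.Agent.Q138.AI.R6babc4 (TwoPoles polesOver)

/-- `F / G` is a rational function with at least two poles over the algebraic closure, `F` and `G` coprime -/
structure Family {L : Type} [Field L] (F G : L[X]) : Prop where
  coprime : IsCoprime F G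
  ne : G ≠ 0
  poles : TwoPoles F G

/-- The elements of `L` whose images are within `c H(t) ^ (-τ)` of `z`. -/
def Near {L Y : Type} [Field L] [NumberField L] [MetricSpace Y] (p : L → Y) (z : Y) (c τ : ℝ) : Set L :=
  {t | dist (p t) z ≤ c * Height.mulHeight₁ t ^ (-τ)}

/-- Frey's inequality without constant, with the coefficients `a`, `a / 2 + 3`, `3`, and with the slope `a / 12` if `a ≥ 6`. -/
def NoConstant (a : ℝ) {L : Type} [Field L] [NumberField L] (j : L) : Prop :=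
  Pool.Agent.Q138.AI.R6babc4.FreySharp a j ∧ (6 ≤ a → Pool.Agent.Q138.AI.R6babc4.Frey (a / 12) j)

theorem noConstant_of {a : ℝ} {L : Type} [Field L] [NumberField L] {j : L} (h : Pool.Agent.Q138.AI.R6babc4.FreySharp a j) :
    NoConstant a j := by
  refine ⟨h, fun ha => Pool.Agent.Q138.AI.R6babc4.frey_of_sharp (by linarith) ?_⟩
  rwa [mul_div_cancel₀ a (by norm_num : (12 : ℝ) ≠ 0)]

section Field

variable {L : Type} [Field L] [NumberField L]

theorem height_iff (t : L) (T : ℝ) (hT : 1 ≤ T) : Height.mulHeight₁ t ≤ T ↔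
    t ∈ Pool.Agent.Results.MP_6babc4_nt.AllFieldsFrey.Inv L (T ^ (1 / (Module.finrank ℚ L : ℝ))) := by
  have hn : (0 : ℝ) < Module.finrank ℚ L := by exact_mod_cast Module.finrank_pos
  unfold Pool.Agent.Results.MP_6babc4_nt.AllFieldsFrey.Inv
  rw [Set.mem_ofPred_eq, Real.log_rpow (by linarith), ← mul_assoc, mul_one_div_cancel hn.ne', one_mul,
    Height.logHeight₁_eq_log_mulHeight₁]
  exact (Real.log_le_log_iff (lt_of_lt_of_le one_pos (Height.one_le_mulHeight₁ t)) (by linarith)).symm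

/-- the coefficients of a polynomial have bounded heights -/
theorem coeff_inv (F : L[X]) : ∃ H : ℝ, 1 ≤ H ∧ ∀ i, F.coeff i ∈ Pool.Agent.Results.MP_6babc4_nt.AllFieldsFrey.Inv L H := by
  have hn : (0 : ℝ) < Module.finrank ℚ L := by exact_mod_cast Module.finrank_pos
  set S : ℝ := ∑ i ∈ Finset.range (F.natDegree + 1), Height.logHeight₁ (F.coeff i) with hS
  have hS0 : 0 ≤ S := Finset.sum_nonneg fun i _ => Height.zero_le_logHeight₁ _
  refine ⟨Real.exp (S / Module.finrank ℚ L), Real.one_le_exp (by positivity), fun i => ?_⟩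
  unfold Pool.Agent.Results.MP_6babc4_nt.AllFieldsFrey.Inv
  rw [Set.mem_ofPred_eq, Real.log_exp, mul_div_cancel₀ _ hn.ne']
  by_cases hi : i ∈ Finset.range (F.natDegree + 1)
  · exact Finset.single_le_sum (f := fun i => Height.logHeight₁ (F.coeff i)) (fun _ _ => Height.zero_le_logHeight₁ _) hi
  · rw [Finset.mem_range, not_lt] at hi
    rw [Polynomial.coeff_eq_zero_of_natDegree_lt (by omega)]
    simpa using hS0

theorem inv_mono {B B' : ℝ} (hB : 1 ≤ B) (h : B ≤ B') {t : L} (ht : t ∈ Pool.Agent.Results.MP_6babc4_nt.AllFieldsFrey.Inv L B) :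
    t ∈ Pool.Agent.Results.MP_6babc4_nt.AllFieldsFrey.Inv L B' := by
  unfold Pool.Agent.Results.MP_6babc4_nt.AllFieldsFrey.Inv at *
  rw [Set.mem_ofPred_eq] at *
  refine ht.trans (mul_le_mul_of_nonneg_left (Real.log_le_log (by linarith) h) (Nat.cast_nonneg _))

/-- the count of the exceptional parameters of one family -/
theorem count {F G : L[X]} (hF : Family F G) {D : ℕ} (h1 : F.natDegree ≤ D) (h2 : G.natDegree ≤ D) (ε : ℝ) (hε : 0 < ε) :
    ∃ C : ℝ, 0 < C ∧ ∀ a : ℝ, 4 ≤ a → ∃ C' : ℝ, ∀ T : ℝ, 1 ≤ T →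
      ({t : L | (G.eval t ≠ 0 ∧ ¬ NoConstant a (F.eval t / G.eval t)) ∧ Height.mulHeight₁ t ≤ T}).Finite ∧
      (({t : L | (G.eval t ≠ 0 ∧ ¬ NoConstant a (F.eval t / G.eval t)) ∧ Height.mulHeight₁ t ≤ T}).ncard : ℝ) ≤
        C' * T ^ (D * Pool.Agent.Q138.AI.R6babc4.gain F G / a + ε) := by
  obtain ⟨H₁, hH₁, hc1⟩ := coeff_inv F
  obtain ⟨H₂, hH₂, hc2⟩ := coeff_inv G
  obtain ⟨C, hC, h⟩ := Pool.Agent.Q138.AI.R6babc4.result D ε hε
  set H := max H₁ H₂ with hH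
  have hH1 : 1 ≤ H := hH₁.trans (le_max_left _ _)
  have hfam : Pool.Agent.Q138.AI.R6babc4.IsFamily D H F G := ⟨hF.coprime, hF.ne, hF.poles, h1, h2,
    fun i => inv_mono hH₁ (le_max_left _ _) (hc1 i), fun i => inv_mono hH₂ (le_max_right _ _) (hc2 i)⟩
  refine ⟨C, hC, fun a ha => ?_⟩
  set g := Pool.Agent.Q138.AI.R6babc4.gain F G with hg
  refine ⟨(C * (H ^ (2 * (D : ℝ) + 2)) ^ (g / a) * H ^ ε) ^ Module.finrank ℚ L, fun T hT => ?_⟩
  have hn : (0 : ℝ) < Module.finrank ℚ L := by exact_mod_cast Module.finrank_pos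
  set B : ℝ := T ^ (1 / (Module.finrank ℚ L : ℝ)) with hB
  have hT0 : 0 < T := by linarith
  have hB1 : 1 ≤ B := Real.one_le_rpow hT (by positivity)
  have hB0 : 0 < B := by linarith
  have hH0 : 0 < H := by linarith
  obtain ⟨h3, h4⟩ := (h L F G H B hfam hH1 hB1).1 a ha
  have hsub : {t : L | (G.eval t ≠ 0 ∧ ¬ NoConstant a (F.eval t / G.eval t)) ∧ Height.mulHeight₁ t ≤ T} ⊆
      Pool.Agent.Q138.AI.R6babc4.ExcSharp F G a B := by
    rintro t ⟨⟨h5, h6⟩, h7⟩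
    exact ⟨(height_iff t T hT).1 h7, h5, fun hcon => h6 (noConstant_of hcon)⟩
  refine ⟨h3.subset hsub, ?_⟩
  have h8 : (({t : L | (G.eval t ≠ 0 ∧ ¬ NoConstant a (F.eval t / G.eval t)) ∧ Height.mulHeight₁ t ≤ T}).ncard : ℝ) ≤
      (Pool.Agent.Q138.AI.R6babc4.ExcSharp F G a B).ncard := by
    exact_mod_cast Set.ncard_le_ncard hsub h3
  refine h8.trans (h4.trans (le_of_eq ?_))
  have e1 : (B ^ (D : ℝ) * H ^ (2 * (D : ℝ) + 2)) ^ (g / a) = B ^ ((D : ℝ) * (g / a)) * (H ^ (2 * (D : ℝ) + 2)) ^ (g / a) := by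
    rw [Real.mul_rpow (by positivity) (by positivity), ← Real.rpow_mul hB0.le]
  have e2 : (B * H) ^ ε = B ^ ε * H ^ ε := Real.mul_rpow hB0.le hH0.le
  have e3 : C * (B ^ ((D : ℝ) * (g / a)) * (H ^ (2 * (D : ℝ) + 2)) ^ (g / a)) * (B ^ ε * H ^ ε) =
      (C * (H ^ (2 * (D : ℝ) + 2)) ^ (g / a) * H ^ ε) * B ^ ((D : ℝ) * (g / a) + ε) := by
    rw [Real.rpow_add hB0]
    ring
  rw [e1, e2, e3, mul_pow]
  congr 1
  rw [← Real.rpow_natCast, ← Real.rpow_mul hB0.le, hB, ← Real.rpow_mul hT0.le]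
  congr 1
  field_simp

theorem one_family {Y : Type} [MetricSpace Y] [MeasurableSpace Y] [BorelSpace Y] (p : L → Y) {F G : L[X]} (hF : Family F G)
    {D r : ℕ} (h1 : F.natDegree ≤ D) (h2 : G.natDegree ≤ D) (hr : r ≤ polesOver F G) {a τ : ℝ} (ha : 4 ≤ a) (hτ : 0 < τ) :
    ∃ Z : Set Y, dimH Z ≤ ENNReal.ofReal (D * (2 / ((max 2 r : ℕ) : ℝ)) / (a * τ)) ∧ ∀ z, z ∉ Z → ∀ c : ℝ,
      {t | t ∈ Near p z c τ ∧ G.eval t ≠ 0 ∧ ¬ NoConstant a (F.eval t / G.eval t)}.Finite := by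
  obtain ⟨Z, hZ, hz⟩ := fin_lim p {t : L | G.eval t ≠ 0 ∧ ¬ NoConstant a (F.eval t / G.eval t)} (fun t => Height.mulHeight₁ t)
    (fun t => Height.one_le_mulHeight₁ t) (D * Pool.Agent.Q138.AI.R6babc4.gain F G / a)
    (by unfold Pool.Agent.Q138.AI.R6babc4.gain; positivity) (by
      intro ε hε
      obtain ⟨-, -, h⟩ := count hF h1 h2 ε hε
      exact h a ha) τ hτ
  refine ⟨Z, hZ.trans (ENNReal.ofReal_le_ofReal ?_), fun z hzZ c => ?_⟩
  · rw [div_div]
    have h3 : Pool.Agent.Q138.AI.R6babc4.gain F G ≤ 2 / ((max 2 r : ℕ) : ℝ) := by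
      unfold Pool.Agent.Q138.AI.R6babc4.gain
      apply div_le_div_of_nonneg_left (by norm_num) (by positivity)
      exact_mod_cast max_le_max le_rfl hr
    have h4 : 0 < a * τ := by positivity
    gcongr
  · have e : {t | t ∈ Near p z c τ ∧ G.eval t ≠ 0 ∧ ¬ NoConstant a (F.eval t / G.eval t)} =
        {t | t ∈ {t : L | G.eval t ≠ 0 ∧ ¬ NoConstant a (F.eval t / G.eval t)} ∧
          dist (p t) z ≤ c * Height.mulHeight₁ t ^ (-τ)} := by
      ext t
      exact and_comm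
    rw [e]
    exact hz z hzZ c

theorem one_zero {Y : Type} [MetricSpace Y] [MeasurableSpace Y] [BorelSpace Y] (p : L → Y) {F G : L[X]} (hF : Family F G) :
    ∃ Z : Set Y, dimH Z = 0 ∧ ∀ z, z ∉ Z → ∀ τ c : ℝ, 0 < τ → ∃ N : ℕ,
      {t | t ∈ Near p z c τ ∧ G.eval t ≠ 0 ∧ ¬ Pool.Agent.Q138.AI.R6babc4.Frey N (F.eval t / G.eval t)}.Finite := by
  set D := max F.natDegree G.natDegree with hD
  obtain ⟨Z, hZ, hz⟩ := fin_eps p
    (fun N : ℕ => {t : L | G.eval t ≠ 0 ∧ ¬ Pool.Agent.Q138.AI.R6babc4.Frey (N + 1 : ℕ) (F.eval t / G.eval t)})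
    (fun t => Height.mulHeight₁ t) (fun t => Height.one_le_mulHeight₁ t) (by
      intro ε hε
      obtain ⟨-, -, h⟩ := count hF (le_max_left F.natDegree G.natDegree) (le_max_right F.natDegree G.natDegree) (ε / 2)
        (by positivity)
      obtain ⟨N, hN⟩ := exists_nat_gt ((D : ℝ) / ε)
      have hN0 : (0 : ℝ) ≤ N := Nat.cast_nonneg N
      obtain ⟨C', hC'⟩ := h (12 * (N + 1 : ℕ)) (by push_cast; linarith)
      refine ⟨N, |C'|, fun T hT => ?_⟩
      obtain ⟨h3, h4⟩ := hC' T hT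
      have hsub : {s | s ∈ {t : L | G.eval t ≠ 0 ∧ ¬ Pool.Agent.Q138.AI.R6babc4.Frey (N + 1 : ℕ) (F.eval t / G.eval t)} ∧
          Height.mulHeight₁ s ≤ T} ⊆
          {t : L | (G.eval t ≠ 0 ∧ ¬ NoConstant (12 * (N + 1 : ℕ)) (F.eval t / G.eval t)) ∧ Height.mulHeight₁ t ≤ T} := by
        rintro t ⟨⟨h5, h6⟩, h7⟩
        refine ⟨⟨h5, fun hcon => h6 ?_⟩, h7⟩
        have h8 := hcon.2 (by push_cast; linarith)
        rwa [mul_div_cancel_left₀ _ (by norm_num : (12 : ℝ) ≠ 0)] at h8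
      refine ⟨h3.subset hsub, ?_⟩
      have h8 : ((({s | s ∈ {t : L | G.eval t ≠ 0 ∧ ¬ Pool.Agent.Q138.AI.R6babc4.Frey (N + 1 : ℕ) (F.eval t / G.eval t)} ∧
          Height.mulHeight₁ s ≤ T}).ncard : ℕ) : ℝ) ≤
          (({t : L | (G.eval t ≠ 0 ∧ ¬ NoConstant (12 * (N + 1 : ℕ)) (F.eval t / G.eval t)) ∧
            Height.mulHeight₁ t ≤ T}).ncard : ℕ) := by
        exact_mod_cast Set.ncard_le_ncard hsub h3
      refine h8.trans (h4.trans ?_)
      have hT0 : 0 ≤ T := by linarith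
      refine (mul_le_mul_of_nonneg_right (le_abs_self C') (Real.rpow_nonneg hT0 _)).trans
        (mul_le_mul_of_nonneg_left (Real.rpow_le_rpow_of_exponent_le hT ?_) (abs_nonneg _))
      have h9 : Pool.Agent.Q138.AI.R6babc4.gain F G ≤ 1 := by
        unfold Pool.Agent.Q138.AI.R6babc4.gain
        rw [div_le_one (by positivity)]
        exact_mod_cast le_max_left _ _
      have h10 : (D : ℝ) * Pool.Agent.Q138.AI.R6babc4.gain F G / (12 * (N + 1 : ℕ)) ≤ ε / 2 := by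
        rw [div_le_iff₀ (by positivity)]
        rw [div_lt_iff₀ hε] at hN
        have h11 : (D : ℝ) * Pool.Agent.Q138.AI.R6babc4.gain F G ≤ D := by
          have : (0 : ℝ) ≤ D := Nat.cast_nonneg _
          nlinarith
        push_cast
        nlinarith
      linarith)
  refine ⟨Z, hZ, fun z hzZ τ c hτ => ?_⟩
  obtain ⟨N, hN⟩ := hz z hzZ τ c hτ
  refine ⟨N + 1, hN.subset ?_⟩
  rintro t ⟨h3, h4⟩
  exact ⟨h4, h3⟩

end Field

/-- one set for all families over `L` -/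
theorem all_zero (L : Type) [Field L] [NumberField L] (Y : Type) [MetricSpace Y] [MeasurableSpace Y] [BorelSpace Y]
    (p : L → Y) : ∃ Z : Set Y, dimH Z = 0 ∧ ∀ z, z ∉ Z → ∀ F G : L[X], Family F G → ∀ τ c : ℝ, 0 < τ → ∃ N : ℕ,
      {t | t ∈ Near p z c τ ∧ G.eval t ≠ 0 ∧ ¬ Pool.Agent.Q138.AI.R6babc4.Frey N (F.eval t / G.eval t)}.Finite := by
  have hcount := countable_poly L
  have h : ∀ q : {q : L[X] × L[X] // Family q.1 q.2}, ∃ Z : Set Y, dimH Z = 0 ∧ ∀ z, z ∉ Z → ∀ τ c : ℝ, 0 < τ → ∃ N : ℕ,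
      {t | t ∈ Near p z c τ ∧ q.1.2.eval t ≠ 0 ∧ ¬ Pool.Agent.Q138.AI.R6babc4.Frey N (q.1.1.eval t / q.1.2.eval t)}.Finite :=
    fun q => one_zero p q.2
  choose Z hZ hz using h
  refine ⟨⋃ q, Z q, le_antisymm (dimH_union_le Z 0 fun q => (hZ q).le) bot_le, fun z hzZ F G hF τ c hτ => ?_⟩
  exact hz ⟨(F, G), hF⟩ z (fun hh => hzZ (Set.mem_iUnion.2 ⟨_, hh⟩)) τ c hτ

/-- **Theorem.** -/
theorem result :
    (∃ C : ℝ, 0 < C ∧ ∀ (L : Type) [Field L] [NumberField L] (Y : Type) [MetricSpace Y] [MeasurableSpace Y] [BorelSpace Y]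
      (p : L → Y) (δ τ : ℝ), 0 ≤ δ → δ ≤ 3 → 0 < τ → ∃ Z : Set Y,
        dimH Z ≤ ENNReal.ofReal ((2 - δ / (2 * (1 + δ))) / τ) ∧ ∀ z, z ∉ Z → ∀ c : ℝ,
          {j | j ∈ Near p z c τ ∧ ¬ Pool.Agent.Results.MP_6babc4_nt.AllFieldsFrey.FreySharp δ C j}.Finite) ∧
    (∀ (L : Type) [Field L] [NumberField L] (Y : Type) [MetricSpace Y] [MeasurableSpace Y] [BorelSpace Y] (p : L → Y),
      (∀ (D r : ℕ) (a τ : ℝ), 4 ≤ a → 0 < τ → ∃ Z : Set Y, dimH Z ≤ ENNReal.ofReal (D * (2 / ((max 2 r : ℕ) : ℝ)) / (a * τ)) ∧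
        ∀ z, z ∉ Z → ∀ F G : L[X], Family F G → F.natDegree ≤ D → G.natDegree ≤ D → r ≤ polesOver F G → ∀ c : ℝ,
          {t | t ∈ Near p z c τ ∧ G.eval t ≠ 0 ∧ ¬ NoConstant a (F.eval t / G.eval t)}.Finite) ∧
      ∃ Z : Set Y, dimH Z = 0 ∧ ∀ z, z ∉ Z → ∀ F G : L[X], Family F G → ∀ τ c : ℝ, 0 < τ → ∃ N : ℕ,
        {t | t ∈ Near p z c τ ∧ G.eval t ≠ 0 ∧ ¬ Pool.Agent.Q138.AI.R6babc4.Frey N (F.eval t / G.eval t)}.Finite) ∧
    ∃ Z : Set ℂ, dimH Z = 0 ∧ ∀ z, z ∉ Z → ∀ (L : IntermediateField ℚ ℂ) [NumberField L] (F G : L[X]), Family F G →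
      ∀ τ c : ℝ, 0 < τ → ∃ N : ℕ, {t | t ∈ Near (fun t : L => (t : ℂ)) z c τ ∧ G.eval t ≠ 0 ∧
        ¬ Pool.Agent.Q138.AI.R6babc4.Frey N (F.eval t / G.eval t)}.Finite := by
  refine ⟨?_, fun L _ _ Y _ _ _ p => ⟨?_, all_zero L Y p⟩, ?_⟩
  · obtain ⟨C, hC, h⟩ := Pool.Agent.Results.MP_6babc4_nt.AllFieldsFrey.result.1
    refine ⟨C, hC, fun L _ _ Y _ _ _ p δ τ hδ hδ3 hτ => ?_⟩
    have hn : (0 : ℝ) < Module.finrank ℚ L := by exact_mod_cast Module.finrank_pos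
    have hexp : 0 ≤ 2 - δ / (2 * (1 + δ)) := by
      have : δ / (2 * (1 + δ)) ≤ 1 := by
        rw [div_le_one (by positivity)]
        linarith
      linarith
    obtain ⟨Z, hZ, hz⟩ := fin_lim p {j : L | ¬ Pool.Agent.Results.MP_6babc4_nt.AllFieldsFrey.FreySharp δ C j}
      (fun t => Height.mulHeight₁ t) (fun t => Height.one_le_mulHeight₁ t) (2 - δ / (2 * (1 + δ))) hexp (by
        intro ε hε
        obtain ⟨M, hM, h1⟩ := h δ ε hδ hδ3 hε
        refine ⟨M ^ Module.finrank ℚ L, fun T hT => ?_⟩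
        set B : ℝ := T ^ (1 / (Module.finrank ℚ L : ℝ)) with hB
        have hT0 : 0 < T := by linarith
        have hB1 : 1 ≤ B := Real.one_le_rpow hT (by positivity)
        have hB0 : 0 < B := by linarith
        obtain ⟨h2, h3, -⟩ := h1 L B hB1
        have e : {s | s ∈ {j : L | ¬ Pool.Agent.Results.MP_6babc4_nt.AllFieldsFrey.FreySharp δ C j} ∧
            Height.mulHeight₁ s ≤ T} = Pool.Agent.Results.MP_6babc4_nt.AllFieldsFrey.ExcSharp L δ C B := by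
          ext t
          constructor
          · rintro ⟨h5, h6⟩
            exact ⟨(height_iff t T hT).1 h6, h5⟩
          · rintro ⟨h5, h6⟩
            exact ⟨h6, (height_iff t T hT).2 h5⟩
        rw [e]
        refine ⟨h2.subset fun t ht => ht.1, h3.trans (le_of_eq ?_)⟩
        rw [mul_pow]
        congr 1
        rw [← Real.rpow_natCast, ← Real.rpow_mul hB0.le, hB, ← Real.rpow_mul hT0.le]
        congr 1
        field_simp) τ hτ
    refine ⟨Z, hZ, fun z hzZ c => (hz z hzZ c).subset ?_⟩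
    rintro t ⟨h5, h6⟩
    exact ⟨h6, h5⟩
  · intro D r a τ ha hτ
    have hcount := countable_poly L
    have h : ∀ q : {q : L[X] × L[X] // Family q.1 q.2 ∧ q.1.natDegree ≤ D ∧ q.2.natDegree ≤ D ∧ r ≤ polesOver q.1 q.2},
        ∃ Z : Set Y, dimH Z ≤ ENNReal.ofReal (D * (2 / ((max 2 r : ℕ) : ℝ)) / (a * τ)) ∧ ∀ z, z ∉ Z → ∀ c : ℝ,
          {t | t ∈ Near p z c τ ∧ q.1.2.eval t ≠ 0 ∧ ¬ NoConstant a (q.1.1.eval t / q.1.2.eval t)}.Finite := by
      rintro ⟨⟨F, G⟩, hF, h1, h2, hr⟩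
      exact one_family p hF h1 h2 hr ha hτ
    choose Z hZ hz using h
    refine ⟨⋃ q, Z q, dimH_union_le Z _ hZ, fun z hzZ F G hF h1 h2 hr c => ?_⟩
    exact hz ⟨(F, G), hF, h1, h2, hr⟩ z (fun hh => hzZ (Set.mem_iUnion.2 ⟨_, hh⟩)) c
  · have hcN := countN
    have h2 : ∀ L : {L : IntermediateField ℚ ℂ // NumberField L}, ∃ Z : Set ℂ, dimH Z = 0 ∧ ∀ z, z ∉ Z →
        ∀ (_ : NumberField L.1) (F G : L.1[X]), Family F G → ∀ τ c : ℝ, 0 < τ → ∃ N : ℕ,
          {t | t ∈ Near (fun t : L.1 => (t : ℂ)) z c τ ∧ G.eval t ≠ 0 ∧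
            ¬ Pool.Agent.Q138.AI.R6babc4.Frey N (F.eval t / G.eval t)}.Finite := by
      rintro ⟨L, hL⟩
      obtain ⟨Z, hZ, hz⟩ := all_zero L ℂ (fun t : L => (t : ℂ))
      exact ⟨Z, hZ, fun z hzZ _ => hz z hzZ⟩
    choose Z hZ hz using h2
    refine ⟨⋃ L, Z L, le_antisymm (dimH_union_le Z 0 fun q => (hZ q).le) bot_le, fun z hzZ L hL F G hF τ c hτ => ?_⟩
    exact hz ⟨L, hL⟩ z (fun hh => hzZ (Set.mem_iUnion.2 ⟨_, hh⟩)) hL F G hF τ c hτ

end Pool.Agent.Results.MP_6babc4_nt.FamiliesNearGivenPoints
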