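import Pool.Agent.Q183.AM.H4
import Pool.Agent.Results.MP_6babc4_nt.AllFieldsFrey

/-!
# Frey's inequality with the sharp slope `1 / 2` along linear recurrences

Let `g_j` be finitely many sequences of integers of a number field `L` with linear recurrences with
constant coefficients, and let `A_i(t) = κ_i μ_i ^ t ∏ g_j(t) ^ e_ij`, `i = 0, 1, 2`, with
`A_0 + A_1 + A_2 = 0`. The invariants `j_t = -1728 A_0(t) / A_2(t)` are those of the elliptic curves
with `c₄³ : - c₆² : - 1728 Δ = A_0(t) : A_1(t) : A_2(t)`, for example of all families of elliptic curves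
whose coefficients have linear recurrences.

For all elliptic curves `E` over `L` (all twists) with invariant `j_s` and all subfields `K` of `L` we
show for the Weil restriction `A = Res_{L/K} E`, of dimension `g = [L : K]`, that
`h_F(A) ≤ (1 / (2 [K : ℚ])) (log N_A + log N 𝔟) + X`, if the product of the `g_j(s)` with unequal
exponents is the product of a squarefree ideal and of an ideal `𝔟` prime to it, for almost all `s`
with a constant `X`, and for all `s` with `X + ε s` instead of `X`.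
-/

set_option autoImplicit false

namespace Pool.Agent.Results.MP_6babc4_nt.FreyAlongRecurrences

open NumberField Pool.Agent.Results.MP_6babc4_nt.AllFieldsFrey

variable {L : Type} [Field L] [NumberField L] {J : Type} [Fintype J]

/-- `A_i(t) = κ_i μ_i ^ t ∏ g_j(t) ^ e_ij` -/
def A (κ μ : Fin 3 → 𝓞 L) (g : J → ℕ → 𝓞 L) (e : Fin 3 → J → ℕ) (i : Fin 3) (t : ℕ) : 𝓞 L :=
  κ i * μ i ^ t * ∏ j, g j t ^ e i j

/-- the invariant `j_t = -1728 A_0(t) / A_2(t)` -/
noncomputable def inv (κ μ : Fin 3 → 𝓞 L) (g : J → ℕ → 𝓞 L) (e : Fin 3 → J → ℕ) (t : ℕ) : L :=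
  -(1728 * (A κ μ g e 0 t : L) / (A κ μ g e 2 t : L))

/-- the indices `j` with exponents `e_0j, e_1j, e_2j` which are not all equal -/
def uneq (e : Fin 3 → J → ℕ) : Finset J :=
  Finset.univ.filter fun j => ¬ (e 0 j = e 1 j ∧ e 1 j = e 2 j)

/-- Frey's inequality for all elliptic curves `E` over `L` of invariant `j_s`, with periods `τ`, and
all subfields `K` of `L`, with the constant `X`: for all ideals `𝔟` such that the product of the
`g_j(s)` with unequal exponents is `𝔞 𝔟` with a squarefree ideal `𝔞` prime to `𝔟`, the Weil restriction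
`A = Res_{L/K} E` satisfies
`12 [K : ℚ] h_F(A) ≤ 6 log (multNorm E * addNorm E) + 3 log (relDisc ^ 2) + 6 log N 𝔟 + X` and
`h_F(A) ≤ (1 / (2 [K : ℚ])) (log N_A + log N 𝔟) + X`. -/
def FreyAt (κ μ : Fin 3 → 𝓞 L) (g : J → ℕ → 𝓞 L) (e : Fin 3 → J → ℕ) (X : ℝ) (s : ℕ) : Prop :=
  ∀ (E : WeierstrassCurve L) (τ : InfinitePlace L → UpperHalfPlane), E.Δ ≠ 0 →
    E.c₄ ^ 3 / E.Δ = inv κ μ g e s → IsPeriod (inv κ μ g e s) τ → ∀ 𝔞 𝔟 : Ideal (𝓞 L),
    Ideal.span {∏ j ∈ uneq e, g j s} = 𝔞 * 𝔟 → Squarefree 𝔞 → IsCoprime 𝔞 𝔟 →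
    ∀ (K : Type) [Field K] [NumberField K] [Algebra K L],
      12 * Module.finrank ℚ K * height K E τ ≤ 6 * Real.log (multNorm E * addNorm E) +
        3 * Real.log (relDisc K L ^ 2) + 6 * Real.log (Ideal.absNorm 𝔟) + X ∧
      height K E τ ≤ 1 / (2 * Module.finrank ℚ K) *
        (Real.log (AllFieldsFrey.cond K E) + Real.log (Ideal.absNorm 𝔟)) + X

theorem freyAt_of {κ μ : Fin 3 → 𝓞 L} {g : J → ℕ → 𝓞 L} {e : Fin 3 → J → ℕ} {X : ℝ} (hX : 0 ≤ X)
    {s : ℕ} (h : Pool.Agent.Q183.AM.FIneq κ μ g e (Real.exp X) s) : FreyAt κ μ g e X s := by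
  intro E τ hE hj hτ 𝔞 𝔟 h1 h2 h3 K _ _ _
  have hm : Pool.Agent.Y733.FF.discSum E +
      ∑ w : InfinitePlace L, (w.mult : ℝ) * Pool.Agent.TH876.FH.arch (τ w) ≤
      6 * (Real.log (multNorm E) + Real.log (addNorm E)) + 6 * Real.log (Ideal.absNorm 𝔟) +
        Real.log (max (Real.exp X) 1) := h E τ hE hj hτ 𝔞 𝔟 h1 h2 h3
  rw [max_eq_left (Real.one_le_exp hX), Real.log_exp] at hm
  have h4 := height_eq (K := K) E τ
  have hpm : 0 < multNorm E := Pool.Agent.Y733.FF.multN_pos E hE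
  have hpa : 0 < addNorm E := Pool.Agent.Y733.FF.addN_pos E hE
  have hlog : Real.log (multNorm E * addNorm E) = Real.log (multNorm E) + Real.log (addNorm E) :=
    Real.log_mul hpm.ne' hpa.ne'
  have hn := n_pos (K := K)
  have hn1 : (1 : ℝ) ≤ Module.finrank ℚ K := by exact_mod_cast Module.finrank_pos (R := ℚ) (M := K)
  have hd1 : (0 : ℝ) < |(discr L : ℝ)| := by
    have : (discr L : ℝ) ≠ 0 := by exact_mod_cast discr_ne_zero L
    positivity
  have hd2 : (0 : ℝ) < |(discr K : ℝ)| := by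
    have : (discr K : ℝ) ≠ 0 := by exact_mod_cast discr_ne_zero K
    positivity
  have hr : 0 < relDisc K L := by
    unfold relDisc
    positivity
  have hlr : 0 ≤ Real.log (relDisc K L ^ 2) := by
    have h2 := Pool.Agent.Y733.FF.disc_ge K L
    unfold relDisc
    rw [Real.log_pow, Real.log_div hd1.ne' (pow_pos hd2 _).ne', Real.log_pow]
    have : 0 ≤ Real.log |(discr L : ℝ)| - Module.finrank K L * Real.log |(discr K : ℝ)| := by
      linarith
    push_cast
    positivity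
  have hc : Real.log (AllFieldsFrey.cond K E) = Real.log (multNorm E * addNorm E) +
      Real.log (relDisc K L ^ 2) := by
    unfold AllFieldsFrey.cond
    rw [Real.log_mul (mul_pos hpm hpa).ne' (pow_pos hr 2).ne']
  have part1 : 12 * Module.finrank ℚ K * height K E τ ≤ 6 * Real.log (multNorm E * addNorm E) +
      3 * Real.log (relDisc K L ^ 2) + 6 * Real.log (Ideal.absNorm 𝔟) + X := by
    rw [h4, hlog]
    linarith
  refine ⟨part1, ?_⟩
  have h5 : height K E τ - X ≤ 1 / (2 * Module.finrank ℚ K) *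
      (Real.log (AllFieldsFrey.cond K E) + Real.log (Ideal.absNorm 𝔟)) := by
    rw [one_div, inv_mul_eq_div, le_div_iff₀ (by positivity), hc]
    nlinarith
  linarith

/-- **Main theorem.** If the `g_j` have linear recurrences and `A_0 + A_1 + A_2 = 0`:
(1) for every `η > 0` there is a constant `X` such that Frey's inequality with the constant `X` holds
for all `s` with `A_2(s) ≠ 0` outside a set with at most `η n` elements among any `n` consecutive
integers, for `n` large and from some point on;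
(2) for every `ε > 0` there is a constant `X` such that Frey's inequality with `X + ε s` holds for all
`s` with `A_2(s) ≠ 0`. -/
theorem result (g : J → ℕ → 𝓞 L)
    (hg : ∀ j, ∃ E : LinearRecurrence (𝓞 L), E.IsSolution (g j)) (κ μ : Fin 3 → 𝓞 L)
    (hμ : ∀ i, μ i ≠ 0) (e : Fin 3 → J → ℕ) (hsum : ∀ t, ∑ i, A κ μ g e i t = 0) :
    (∀ η : ℝ, 0 < η → ∃ (X : ℝ) (T z : ℕ), ∀ t n : ℕ, z ≤ t → T ≤ n →
      (({s | t ≤ s ∧ s < t + n ∧ A κ μ g e 2 s ≠ 0 ∧ ¬ FreyAt κ μ g e X s}.ncard : ℕ) : ℝ) ≤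
        η * n) ∧
    ∀ ε : ℝ, 0 < ε → ∃ X : ℝ, ∀ s : ℕ, A κ μ g e 2 s ≠ 0 → FreyAt κ μ g e (X + ε * s) s := by
  refine ⟨fun η hη => ?_, fun ε hε => ?_⟩
  · obtain ⟨X, T, z, hX, h⟩ := Pool.Agent.Q183.AM.frey_aa g hg κ μ hμ e hsum η hη
    refine ⟨X, T, z, fun t n ht hn => le_trans ?_ (h t n ht hn)⟩
    have h4 : {s | t ≤ s ∧ s < t + n ∧ A κ μ g e 2 s ≠ 0 ∧ ¬ FreyAt κ μ g e X s} ⊆
        {s | t ≤ s ∧ s < t + n ∧ ¬ (Pool.Agent.Q183.AR.term κ μ g e 2 s ≠ 0 →
          Pool.Agent.Q183.AM.FIneq κ μ g e (Real.exp X) s)} := by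
      rintro s ⟨k1, k2, k3, k4⟩
      exact ⟨k1, k2, fun h => k4 (freyAt_of hX (h k3))⟩
    exact_mod_cast Set.ncard_le_ncard h4
      ((Set.finite_Ico t (t + n)).subset fun _ hs => ⟨hs.1, hs.2.1⟩)
  · obtain ⟨X, hX, h⟩ := Pool.Agent.Q183.AM.frey_ee g hg κ μ hμ e hsum ε hε
    exact ⟨X, fun s hs => freyAt_of (by positivity) (h s hs)⟩

end Pool.Agent.Results.MP_6babc4_nt.FreyAlongRecurrences
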