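import Mathlib
import Pool.Agent.Q103.SDJ.Frey
import Pool.Agent.Results.MP_6babc4_nt.AllFieldsFrey

/-!
# Frey's inequality with the sharp slope `1 / 2` and a gain, for all elliptic curves over all number
# fields whose invariant is composed of numbers with small digits, and their Weil restrictions

Let `t` be an integer of a number field `L` all of whose conjugates are at least `T` in absolute
value (the base). The invariant `j ∈ L` is composed of numbers with small digits in the base `t` if
`(j : 1728 - j : -1728)` has coordinates `b k * ∏ i, F i (t) ^ e k i` with pairwise coprime numbers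
`F i (t)` with small digits, at most `D` in all, small `b k`, and exponents at most `T ^ δ`, and the
product of the `F i (t)` which occur with different exponents in the coordinates is squarefree. These
are the invariants of the elliptic curves for which `c₄`, `c₆` and `Δ` are such products, since
`c₄ ^ 3 - c₆ ^ 2 = 1728 Δ`.

Frey asks for constants `κ`, `c`, depending only on the number field `K` and on `g`, such that
`h_F(A) ≤ κ log N_A + c` for all abelian varieties `A` over `K` of dimension `g`. For ALL elliptic
curves `E` over `L` with such invariants (all twists) and all subfields `K` of `L` we show for the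
Weil restriction `A = Res_{L/K} E`, of dimension `g = [L : K]`, that
`h_F(A) ≤ (1 / (2 [K : ℚ])) (log N_A - (1 - ε) log |N_{L/ℚ}(t)|)`. The slope is that of Szpiro's
conjecture, there is no additive constant, and the constants `δ`, `T₀` depend on `D` and `ε` only.

Proof: the abc inequality for the point `(j : 1728 - j : -1728)` and a sharp local inequality: the
exponents of the minimal discriminant `d_v`, prime to six, satisfy `d_v ≤ 10` and
`d_v ≡ - v(j) mod 3`, `d_v ≡ v(j - 1728) mod 2` at the primes of additive, potentially good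
reduction, so that the primes at which `j` or `j - 1728` vanishes do not contribute too much.
-/

set_option autoImplicit false

namespace Pool.Agent.Results.MP_6babc4_nt.SmallDigitInvariants

open Polynomial IsDedekindDomain NumberField
open Pool.Agent.Results.MP_a793bb_nt.SmallDigitPoints (Small point unequal)
open Pool.Agent.Results.MP_6babc4_nt.AllFieldsFrey

/-- The invariant `j` is composed of numbers with small digits in the base `t`: up to a common factor
`s` the numbers `j`, `1728 - j` and `- 1728` are products `b k * ∏ i, F i (t) ^ e k i` as in `Small`,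
not all exponent vectors are the same, and the product of the `F i (t)` with different exponents is
squarefree. -/
def Composed {L : Type} [Field L] [NumberField L] (D : ℕ) (δ T : ℝ) (t : 𝓞 L) (j : L) : Prop :=
  ∃ (n : ℕ) (F : Fin n → (𝓞 L)[X]) (b : Fin 3 → 𝓞 L) (e : Fin 3 → Fin n → ℕ) (s : L),
    Small D δ T t F b e ∧ (unequal e).Nonempty ∧
    Squarefree (Ideal.span {∏ i ∈ unequal e, (F i).eval t}) ∧ s ≠ 0 ∧
    (point t F b e 0 : L) = s * j ∧ (point t F b e 1 : L) = s * (1728 - j) ∧
    (point t F b e 2 : L) = -(s * 1728)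

/-- `log |N_{L/ℚ}(t)|` -/
noncomputable def logNorm {L : Type} [Field L] [NumberField L] (t : 𝓞 L) : ℝ :=
  Real.log |((Algebra.norm ℚ (t : L) : ℚ) : ℝ)|

/-- **Main theorem.** For all `D` and `ε > 0` there are `δ > 0` and `T₀` such that for all `T ≥ T₀`,
all number fields `L`, all bases `t`, all elliptic curves `E` over `L` whose invariant is composed of
numbers with small digits and all subfields `K` of `L`, the Weil restriction `A = Res_{L/K} E`
satisfies
(1) `12 [K : ℚ] h_F(A) ≤ 6 log (multNorm E * addNorm E) + 3 log (relDisc ^ 2) - 6 (1 - ε) log |N(t)|`,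
(2) `h_F(A) ≤ (1 / (2 [K : ℚ])) (log N_A - (1 - ε) log |N(t)|)`. -/
theorem result (D : ℕ) (ε : ℝ) (hε : 0 < ε) : ∃ δ : ℝ, 0 < δ ∧ ∃ T₀ : ℝ, 1 ≤ T₀ ∧
    ∀ T : ℝ, T₀ ≤ T → ∀ (L : Type) [Field L] [NumberField L] (t : 𝓞 L) (E : WeierstrassCurve L)
      (τ : InfinitePlace L → UpperHalfPlane), E.Δ ≠ 0 → Composed D δ T t (E.c₄ ^ 3 / E.Δ) →
      IsPeriod (E.c₄ ^ 3 / E.Δ) τ → ∀ (K : Type) [Field K] [NumberField K] [Algebra K L],
        12 * Module.finrank ℚ K * height K E τ ≤ 6 * Real.log (multNorm E * addNorm E) +
          3 * Real.log (relDisc K L ^ 2) - 6 * (1 - ε) * logNorm t ∧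
        height K E τ ≤ 1 / (2 * Module.finrank ℚ K) *
          (Real.log (AllFieldsFrey.cond K E) - (1 - ε) * logNorm t) := by
  obtain ⟨δ, hδ, T₀, hT₀, h⟩ := Pool.Agent.Q103.SDJ.frey_small D ε hε
  refine ⟨δ, hδ, T₀, hT₀, ?_⟩
  intro T hT L _ _ t E τ hE hj hτ K _ _ _
  obtain ⟨n, F, b, e, s, h1, h2, h3, hs, e0, e1, e2⟩ := hj
  obtain ⟨hN, hm⟩ := h T hT L t (point t F b e) ⟨n, F, b, e, h1, h2, h3, rfl⟩ E τ hE
    ⟨s, hs, e0, e1, e2⟩ hτ
  have hm' : Pool.Agent.Y733.FF.discSum E +
      ∑ w : InfinitePlace L, (w.mult : ℝ) * Pool.Agent.TH876.FH.arch (τ w) +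
      6 * (1 - ε) * logNorm t ≤ 6 * (Real.log (multNorm E) + Real.log (addNorm E)) := hm
  have h4 := height_eq (K := K) E τ
  have hpm : 0 < multNorm E := Pool.Agent.Y733.FF.multN_pos E hE
  have hpa : 0 < addNorm E := Pool.Agent.Y733.FF.addN_pos E hE
  have hlog : Real.log (multNorm E * addNorm E) = Real.log (multNorm E) + Real.log (addNorm E) :=
    Real.log_mul hpm.ne' hpa.ne'
  have hn := n_pos (K := K)
  have hd1 : (0 : ℝ) < |(discr L : ℝ)| := by
    have : (discr L : ℝ) ≠ 0 := by exact_mod_cast discr_ne_zero L
    positivity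
  have hd2 : (0 : ℝ) < |(discr K : ℝ)| := by
    have : (discr K : ℝ) ≠ 0 := by exact_mod_cast discr_ne_zero K
    positivity
  have hr : 0 < relDisc K L := by
    unfold relDisc
    positivity
  have hlr : 0 ≤ Real.log (relDisc K L ^ 2) := by
    have h2 := Pool.Agent.Y733.FF.disc_ge K L
    unfold relDisc
    rw [Real.log_pow, Real.log_div hd1.ne' (pow_pos hd2 _).ne', Real.log_pow]
    have : 0 ≤ Real.log |(discr L : ℝ)| - Module.finrank K L * Real.log |(discr K : ℝ)| := by
      linarith
    push_cast
    positivity
  have hc : Real.log (AllFieldsFrey.cond K E) = Real.log (multNorm E * addNorm E) +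
      Real.log (relDisc K L ^ 2) := by
    unfold AllFieldsFrey.cond
    rw [Real.log_mul (mul_pos hpm hpa).ne' (pow_pos hr 2).ne']
  have part1 : 12 * Module.finrank ℚ K * height K E τ ≤ 6 * Real.log (multNorm E * addNorm E) +
      3 * Real.log (relDisc K L ^ 2) - 6 * (1 - ε) * logNorm t := by
    rw [h4, hlog]
    linarith
  refine ⟨part1, ?_⟩
  rw [one_div, inv_mul_eq_div, le_div_iff₀ (by positivity), hc]
  linarith

end Pool.Agent.Results.MP_6babc4_nt.SmallDigitInvariants
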